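import Mathlib
import Pool.Agent.H.MP_8487d8_lc.B

namespace Pool.Agent.Results.MP_8487d8_lc.Yes
open Finset SimpleGraph MeasureTheory Pool.Agent.H.MP_8487d8_lc

/-- The set `F` of edges (edge `i` joins the two vertices of `ed i`) is a forest. -/
def Forest {V I : Type} (ed : I → Sym2 V) (F : Finset I) : Prop :=
  (fromEdgeSet (ed '' (F : Set I))).IsAcyclic

open Classical in
/-- The edges arrive in the order `L`; edge `i` is accepted exactly when its value `X i` reaches
the threshold `T i` and adding it to the edges accepted so far leaves a forest. -/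
noncomputable def accepted {V I : Type} (ed : I → Sym2 V) (L : List I) (T : I → WithTop ℝ)
    (X : I → ℝ) : Finset I :=
  L.foldl (fun acc i => if T i ≤ X i ∧ Forest ed (insert i acc) then insert i acc else acc) ∅

/-- Value collected by the thresholds `T`. -/
noncomputable def alg {V I : Type} (ed : I → Sym2 V) (L : List I) (T : I → WithTop ℝ)
    (X : I → ℝ) : ℝ := ∑ i ∈ accepted ed L T X, X i

/-- Value collected by the prophet: the maximum weight of a forest. -/
noncomputable def opt {V I : Type} (ed : I → Sym2 V) (X : I → ℝ) : ℝ :=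
  ⨆ F : {F : Finset I // Forest ed F}, ∑ i ∈ F.1, X i

/-- Expectation of `f X` when the values `X i` are independent, `X i = a i` with probability
`p i` and `X i = b i` with probability `1 - p i`. -/
noncomputable def expect {I : Type} [Fintype I] [DecidableEq I] (p a b : I → ℝ)
    (f : (I → ℝ) → ℝ) : ℝ :=
  ∑ ω : I → Bool, (∏ i, if ω i then p i else 1 - p i) * f fun i => if ω i then a i else b i

theorem result (c : ℝ) (hc : c < 5 / 2) :
    ∃ (V I : Type) (_ : Fintype V) (_ : Fintype I) (_ : DecidableEq I) (ed : I → Sym2 V)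
      (L : List I) (p a b : I → ℝ),
      Function.Injective ed ∧ (∀ i, ¬ (ed i).IsDiag) ∧ L.Nodup ∧ (∀ i, i ∈ L) ∧
      (∀ i, 0 ≤ p i ∧ p i ≤ 1 ∧ 0 ≤ a i ∧ 0 ≤ b i) ∧ 0 < expect p a b (opt ed) ∧
      ∀ (Θ : Type) [MeasurableSpace Θ] (ν : Measure Θ) [IsProbabilityMeasure ν]
        (T : Θ → I → WithTop ℝ),
        c * ∫ θ, expect p a b (alg ed L (T θ)) ∂ν ≤ expect p a b (opt ed) := by
  obtain ⟨k, hk⟩ := exists_nat_ge (max 1 (20 / (5 - 2 * c)))
  have hK : (1 : ℝ) ≤ k := (le_max_left _ _).trans hk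
  have hK2 : 20 ≤ (k : ℝ) * (5 - 2 * c) := by
    have := (le_max_right _ _).trans hk
    rwa [div_le_iff₀ (by linarith)] at this
  have i0 : (0 : ℝ) < (k : ℝ)⁻¹ := by positivity
  have i1 : (k : ℝ)⁻¹ ≤ 1 := inv_le_one_of_one_le₀ hK
  have hkk : (k : ℝ) * (k : ℝ)⁻¹ = 1 := mul_inv_cancel₀ (by linarith)
  obtain ⟨n, hn⟩ : ∃ n, n = k ^ 3 := ⟨_, rfl⟩
  have hn' : (n : ℝ) = (k : ℝ) ^ 3 := by rw [hn]; push_cast; rfl
  have hn0 : (0 : ℝ) < n := by rw [hn']; positivity
  let L : List (It n) := (univ : Finset (It n)).toList.mergeSort (fun x y => decide (rk x ≤ rk y))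
  have hperm : L.Perm (univ : Finset (It n)).toList := List.mergeSort_perm _ _
  have hsort : L.Pairwise (fun x y => rk x ≤ rk y) := by
    have := List.pairwise_mergeSort (le := fun x y : It n => decide (rk x ≤ rk y))
      (fun x y z h1 h2 => by simp at *; omega) (fun x y => by simp; omega)
      (univ : Finset (It n)).toList
    simpa using this
  have hmem : ∀ i, i ∈ L := fun i => hperm.mem_iff.mpr (by simp)
  have hopt : (n : ℝ) * n * (5 - 4 * (k : ℝ)⁻¹) ≤
      expect (fun _ => (k : ℝ)⁻¹) (hi k n) (lo n) (opt (edg (n := n))) := by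
    refine (exBest k hK).trans (ex_mono i0.le i1 fun ω => ?_)
    exact le_ciSup (f := fun F : {F : Finset (It n) // Forest edg F} => ∑ i ∈ F.1, XX k n ω i)
      (Finite.bddAbove_range _) ⟨_, best_acyc ω⟩
  have halg : ∀ T, expect (fun _ => (k : ℝ)⁻¹) (hi k n) (lo n) (alg (edg (n := n)) L T) ≤
      n * (2 * n + k * k) + (k * (n + 1) + 2 * n * k) := by
    intro T
    have h1 : expect (fun _ => (k : ℝ)⁻¹) (hi k n) (lo n) (alg (edg (n := n)) L T) ≤
        ex (k : ℝ)⁻¹ (fun ω => ∑ g, (∑ v, YY k T g v ω + ZZ k n T g ω) +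
          (k * (n + 1) + 2 * n * k)) := by
      refine ex_mono i0.le i1 fun ω => ?_
      have e : accepted edg L T (XX k n ω) = L.foldl (st edg fun i => T i ≤ XX k n ω i) ∅ :=
        congrArg (fun f => L.foldl f ∅) (funext fun acc => funext fun i =>
          @if_congr _ _ _ (_) (_) _ _ _ _ Iff.rfl rfl rfl)
      have h2 := run_sub edg (fun i => T i ≤ XX k n ω i) L ∅
      have h3 := pointwise k n hK hn0.le T ω _ (h2.2.2 (by simp))
        (fun i hi => by
          rcases h2.2.1 i hi with h | h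
          · simp at h
          · exact h.2)
        (fun i h1 h2 => run_rej edg _ L rk hsort i (hmem i) h1 h2 _ _ rfl)
      rw [← e] at h3
      exact h3
    rw [ex_add, ex_sum, ex_const] at h1
    have h4 := sum_le_sum fun g (_ : g ∈ univ) => exG k hK T g
    rw [sum_const, card_univ, Fintype.card_fin, nsmul_eq_mul] at h4
    linarith
  have hB : (n : ℝ) * (2 * n + k * k) + (k * (n + 1) + 2 * n * k) ≤ n * n * (2 + 5 * (k : ℝ)⁻¹) := by
    have a1 : (n : ℝ) * (k : ℝ)⁻¹ = k * k := by rw [hn']; field_simp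
    have a2 : (1 : ℝ) ≤ n := by rw [hn']; exact one_le_pow₀ hK
    have a3 : (k : ℝ) ≤ k * k := by nlinarith
    have a4 : (n : ℝ) * k ≤ n * (k * k) := by nlinarith
    have a5 : (k : ℝ) ≤ n * k := by nlinarith
    have a6 : (n : ℝ) * n * (2 + 5 * (k : ℝ)⁻¹) = n * (2 * n) + 5 * (n * (k * k)) := by
      rw [← a1]; ring
    nlinarith
  have hpos : (0 : ℝ) < n * n * (5 - 4 * (k : ℝ)⁻¹) := mul_pos (by positivity) (by linarith)
  refine ⟨Vt n, It n, inferInstance, inferInstance, inferInstance, edg, L, fun _ => (k : ℝ)⁻¹,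
    hi k n, lo n, edg_inj, edg_nd, hperm.nodup_iff.mpr (nodup_toList _), hmem,
    fun i => ⟨i0.le, i1, ?_, ?_⟩, hpos.trans_le hopt, fun Θ _ ν _ T => ?_⟩
  · rcases i with a | a <;> simp only [hi] <;> split_ifs <;> positivity
  · rcases i with a | a <;> simp only [lo] <;> split_ifs <;> positivity
  · have h0 : ∀ T, 0 ≤ expect (fun _ => (k : ℝ)⁻¹) (hi k n) (lo n) (alg (edg (n := n)) L T) := by
      intro T
      refine le_trans (le_of_eq (ex_const (I := It n) (k : ℝ)⁻¹ 0).symm) (ex_mono i0.le i1 fun ω => ?_)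
      refine sum_nonneg fun i _ => ?_
      rcases i with a | a <;> simp only [hi, lo] <;> split_ifs <;> positivity
    have h1 : ∫ θ, expect (fun _ => (k : ℝ)⁻¹) (hi k n) (lo n) (alg (edg (n := n)) L (T θ)) ∂ν ≤
        n * n * (2 + 5 * (k : ℝ)⁻¹) := by
      have := integral_mono_of_nonneg (μ := ν) (Filter.Eventually.of_forall fun θ => h0 (T θ))
        (integrable_const ((n : ℝ) * n * (2 + 5 * (k : ℝ)⁻¹)))
        (Filter.Eventually.of_forall fun θ => (halg (T θ)).trans hB)
      simpa using this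
    have h2 : 0 ≤ ∫ θ, expect (fun _ => (k : ℝ)⁻¹) (hi k n) (lo n) (alg (edg (n := n)) L (T θ)) ∂ν :=
      integral_nonneg fun θ => h0 (T θ)
    refine le_trans ?_ hopt
    by_cases hc0 : c ≤ 0
    · exact (mul_nonpos_of_nonpos_of_nonneg hc0 h2).trans hpos.le
    · push Not at hc0
      refine (mul_le_mul_of_nonneg_left h1 hc0.le).trans ?_
      have a1 : 20 * (k : ℝ)⁻¹ ≤ 5 - 2 * c := by nlinarith
      have a2 : c * (2 + 5 * (k : ℝ)⁻¹) ≤ 5 - 4 * (k : ℝ)⁻¹ := by nlinarith
      have := mul_le_mul_of_nonneg_left a2 (show (0 : ℝ) ≤ n * n by positivity)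
      linarith

end Pool.Agent.Results.MP_8487d8_lc.Yes
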